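import Pool.Agent.U728.CGeo.Ext

set_option autoImplicit false

/-!
# Almost all unlabelled convex geometries are primitive (MP_0c861e_co, Q2)

Write `L n` for the number of convex geometries on `{1, …, n}` and `N n` for the number of those
which are not primitive. The starting file shows `N n / L n = O(n ^ 3 / 2 ^ n)`, too weak for the
isomorphism classes, which may have `n!` members. Here the growth `2 ^ (n ^ 3) L n ≤ 2 L (n + 1)` is
shown for large `n` (almost all geometries have many members, hence a large antichain of members,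
hence many extensions by one point), and from it `N n * n! * 2 ^ n ≤ L n`. Since every class has at
most `n!` members, the number of classes is at least `L n / n!`, and the number of classes of
geometries which are not primitive is at most `N n`.
-/

namespace Pool.Agent.Results.MP_0c861e_co.UnlabelledPrimitive

open Finset Pool.Agent.R129.CG
open Pool.Agent.U728.CGeo (L_growth)
open Pool.Agent.Results.MP_0c861e_co.LabelledPrimitive (L N L_succ L_anti L_le L_pos N_le f)

/-! ### Isomorphism classes -/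

theorem iso_refl {X : Type} (G : Set (Set X)) : Iso G G :=
  ⟨Equiv.refl X, fun D => by simp⟩

theorem iso_symm {X : Type} {G H : Set (Set X)} (h : Iso G H) : Iso H G := by
  obtain ⟨e, he⟩ := h
  refine ⟨e.symm, fun D => ?_⟩
  rw [he, Equiv.image_symm_image]

theorem iso_trans {X : Type} {G H K : Set (Set X)} (h : Iso G H) (h' : Iso H K) : Iso G K := by
  obtain ⟨e, he⟩ := h
  obtain ⟨e', he'⟩ := h'
  refine ⟨e.trans e', fun D => ?_⟩
  rw [he, he', ← Set.image_comp]
  rfl

/-- Isomorphism of the convex geometries on `Fin n` with the property `P`. -/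
def isoSetoid (n : ℕ) (P : Set (Set (Fin n)) → Prop) : Setoid {G : Set (Set (Fin n)) // P G} where
  r G H := Iso G.1 H.1
  iseqv := ⟨fun G => iso_refl G.1, fun h => iso_symm h, fun h h' => iso_trans h h'⟩

/-- The number of isomorphism classes of the convex geometries on `n` elements. -/
noncomputable def U (n : ℕ) : ℕ := Nat.card (Quotient (isoSetoid n IsCG))

/-- The number of isomorphism classes of the primitive convex geometries on `n` elements. -/
noncomputable def Upr (n : ℕ) : ℕ :=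
  Nat.card (Quotient (isoSetoid n fun G => IsCG G ∧ Primitive G))

theorem L_le_U (n : ℕ) : L n ≤ n.factorial * U n := by
  classical
  have h1 : Nat.card (Equiv.Perm (Fin n) × Quotient (isoSetoid n IsCG)) = n.factorial * U n := by
    rw [Nat.card_prod, Nat.card_eq_fintype_card (α := Equiv.Perm (Fin n)), Fintype.card_perm,
      Fintype.card_fin]
    rfl
  rw [← h1]
  unfold L
  refine Nat.card_le_card_of_surjective
    (fun p : Equiv.Perm (Fin n) × Quotient (isoSetoid n IsCG) =>
      (⟨{D | p.1 ⁻¹' D ∈ (Quotient.out p.2).1}, isCG_image p.1 (Quotient.out p.2).2⟩ :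
        {G : Set (Set (Fin n)) // IsCG G})) ?_
  intro G
  have h2 : Iso (Quotient.out (Quotient.mk (isoSetoid n IsCG) G)).1 G.1 :=
    Quotient.exact (Quotient.out_eq (Quotient.mk (isoSetoid n IsCG) G))
  obtain ⟨e, he⟩ := h2
  refine ⟨(e, Quotient.mk (isoSetoid n IsCG) G), ?_⟩
  apply Subtype.ext
  ext D
  change e ⁻¹' D ∈ (Quotient.out (Quotient.mk (isoSetoid n IsCG) G)).1 ↔ D ∈ G.1
  rw [he, e.image_preimage]

theorem Upr_le (n : ℕ) : Upr n ≤ U n := by
  unfold Upr U
  refine Nat.card_le_card_of_injective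
    (Quotient.map' (s₁ := isoSetoid n fun G => IsCG G ∧ Primitive G) (s₂ := isoSetoid n IsCG)
      (fun G => ⟨G.1, G.2.1⟩) (fun G H h => h)) ?_
  intro a b
  refine Quotient.inductionOn₂ a b fun G H h => ?_
  exact Quotient.sound (s := isoSetoid n fun G => IsCG G ∧ Primitive G)
    (Quotient.exact (s := isoSetoid n IsCG) h)

theorem U_le (n : ℕ) : U n ≤ Upr n + N n := by
  classical
  have h1 : N n = Nat.card {G : Set (Set (Fin n)) // IsCG G ∧ ¬ Primitive G} := by
    unfold N
    exact (Nat.card_coe_set_eq _).symm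
  unfold U Upr
  rw [h1, ← Nat.card_sum]
  refine Nat.card_le_card_of_surjective
    (Sum.elim (Quotient.map' (s₁ := isoSetoid n fun G => IsCG G ∧ Primitive G)
        (s₂ := isoSetoid n IsCG) (fun G => ⟨G.1, G.2.1⟩) (fun G H h => h))
      (fun G => Quotient.mk (isoSetoid n IsCG) ⟨G.1, G.2.1⟩)) ?_
  intro a
  refine Quotient.inductionOn a fun G => ?_
  by_cases h : Primitive G.1
  · exact ⟨Sum.inl (Quotient.mk _ ⟨G.1, G.2, h⟩), rfl⟩
  · exact ⟨Sum.inr ⟨G.1, G.2, h⟩, rfl⟩

/-! ### Numerical estimates -/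

theorem pow_seven (n : ℕ) (hn : 64 ≤ n) : 4 * n ^ 7 ≤ 2 ^ n := by
  induction n, hn using Nat.le_induction with
  | base => norm_num
  | succ n hn ih =>
    have h1 : (n + 1) * 64 ≤ 65 * n := by omega
    have h2 : ((n + 1) * 64) ^ 7 ≤ (65 * n) ^ 7 := Nat.pow_le_pow_left h1 7
    rw [mul_pow, mul_pow] at h2
    have h3 : (n + 1) ^ 7 ≤ 2 * n ^ 7 := by
      norm_num at h2
      omega
    calc 4 * (n + 1) ^ 7 ≤ 4 * (2 * n ^ 7) := Nat.mul_le_mul_left _ h3
      _ = 2 * (4 * n ^ 7) := by ring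
      _ ≤ 2 * 2 ^ n := Nat.mul_le_mul_left _ ih
      _ = 2 ^ (n + 1) := by rw [pow_succ]; ring

/-- the middle binomial coefficient -/
theorem choose_large (n : ℕ) (hn : 1 ≤ n) : 2 ^ (n - 1) ≤ n * (n - 1).choose ((n - 1) / 2) := by
  rw [← Nat.sum_range_choose (n - 1), show n - 1 + 1 = n by omega]
  calc ∑ i ∈ range n, (n - 1).choose i ≤ ∑ _i ∈ range n, (n - 1).choose ((n - 1) / 2) :=
        sum_le_sum (fun i _ => Nat.choose_le_middle i (n - 1))
    _ = n * (n - 1).choose ((n - 1) / 2) := by rw [sum_const, card_range, smul_eq_mul]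

theorem growth (n : ℕ) (hn : 64 ≤ n) : 2 ^ (n ^ 3) * L n ≤ 2 * L (n + 1) := by
  apply L_growth n _ (by omega)
  have hmid := L_anti (n - 1) ((n - 1) / 2) (by omega)
  rw [show n - 1 + 1 = n by omega] at hmid
  refine le_trans ?_ hmid
  rw [← pow_succ]
  apply Nat.pow_le_pow_right (by norm_num)
  have h1 := choose_large n (by omega)
  have h2 := pow_seven n hn
  have h3 : 2 ^ n = 2 * 2 ^ (n - 1) := by
    rw [← pow_succ', show n - 1 + 1 = n by omega]
  have h4 : n * (n * (n * n ^ 3) + 1) ≤ n * (n - 1).choose ((n - 1) / 2) := by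
    refine le_trans ?_ h1
    have h5 : n * (n * (n * n ^ 3) + 1) = n ^ 6 + n := by ring
    have h6 : n ^ 6 + n ≤ 2 * n ^ 7 := by
      have h7 : n ^ 6 ≤ n ^ 7 := Nat.pow_le_pow_right (by omega) (by norm_num)
      have h8 : n ≤ n ^ 7 := Nat.le_self_pow (by norm_num) n
      omega
    rw [h5]
    omega
  exact Nat.le_of_mul_le_mul_left h4 (by omega)

theorem L_mono {a b : ℕ} (h : a ≤ b) : L a ≤ L b := by
  induction b, h using Nat.le_induction with
  | base => exact le_rfl
  | succ b _ ih =>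
    calc L a ≤ L b := ih
      _ ≤ 2 ^ b * L b := Nat.le_mul_of_pos_left _ (by positivity)
      _ ≤ L (b + 1) := L_succ b

theorem term (n a : ℕ) (ha : 2 ≤ a) (hab : 2 * a ≤ n + 1) (hn : 65 ≤ n) :
    L a * L (n + 1 - a) * 2 ^ (2 * n ^ 2) ≤ L n := by
  obtain ⟨b, hb⟩ : ∃ b, b = n + 1 - a := ⟨_, rfl⟩
  rw [← hb]
  have ha2 := L_le a
  rcases Nat.lt_or_ge (16 * n) (2 ^ a) with hbig | hsmall
  · have hmid := L_anti (n - 1) ((n - 1) / 2) (by omega)
    rw [show n - 1 + 1 = n by omega] at hmid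
    set C := (n - 1).choose ((n - 1) / 2) with hC
    have hsum : 2 ^ (n - 1) ≤ n * C := choose_large n (by omega)
    have h7 := pow_seven n (by omega)
    have e1 : 2 ^ n = 2 ^ 2 * 2 ^ (n - 2) := by
      rw [← pow_add]; congr 1; omega
    have e2 : 2 ^ (n - 1) = 2 ^ 1 * 2 ^ (n - 2) := by
      rw [← pow_add]; congr 1; omega
    have h1 : n * 2 ^ (b + 1) ≤ 2 ^ (n - 2) := by
      have h2 : 16 * (n * 2 ^ (b + 1)) ≤ 16 * 2 ^ (n - 2) := by
        calc 16 * (n * 2 ^ (b + 1)) = (16 * n) * 2 ^ (b + 1) := by ring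
          _ ≤ 2 ^ a * 2 ^ (b + 1) := Nat.mul_le_mul_right _ hbig.le
          _ = 2 ^ (n + 2) := by rw [← pow_add]; congr 1; omega
          _ = 16 * 2 ^ (n - 2) := by
              rw [show n + 2 = 4 + (n - 2) by omega, pow_add]; norm_num
      omega
    have h3 : 2 ^ (b + 1) + 2 * n ^ 2 ≤ C := by
      have h4 : n * (2 ^ (b + 1) + 2 * n ^ 2) ≤ n * C := by
        refine le_trans ?_ hsum
        have e : n * (2 ^ (b + 1) + 2 * n ^ 2) = n * 2 ^ (b + 1) + 2 * n ^ 3 := by ring
        have h8 : 2 * n ^ 3 ≤ n ^ 4 := by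
          have : n ^ 4 = n * n ^ 3 := by ring
          rw [this]
          exact Nat.mul_le_mul_right _ (by omega)
        have h9 : n ^ 4 ≤ n ^ 7 := Nat.pow_le_pow_right (by omega) (by norm_num)
        rw [e, e2]
        rw [e1] at h7
        omega
      exact Nat.le_of_mul_le_mul_left h4 (by omega)
    have hbb := L_le b
    have hab' : 2 ^ a ≤ 2 ^ b := Nat.pow_le_pow_right (by norm_num) (by omega)
    calc L a * L b * 2 ^ (2 * n ^ 2) ≤ 2 ^ 2 ^ a * 2 ^ 2 ^ b * 2 ^ (2 * n ^ 2) := by gcongr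
      _ = 2 ^ (2 ^ a + 2 ^ b + 2 * n ^ 2) := by rw [← pow_add, ← pow_add]
      _ ≤ 2 ^ C := by
          apply Nat.pow_le_pow_right (by norm_num)
          rw [pow_succ] at h3
          omega
      _ ≤ L n := hmid
  · have hg := growth (n - 1) (by omega)
    rw [show n - 1 + 1 = n by omega] at hg
    have hLb : L b ≤ L (n - 1) := L_mono (by omega)
    have key : 16 * n + 2 * n ^ 2 + 1 ≤ (n - 1) ^ 3 := by
      obtain ⟨m, rfl⟩ : ∃ m, n = m + 1 := ⟨n - 1, by omega⟩
      rw [Nat.add_sub_cancel]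
      have hm : 64 ≤ m := by omega
      have h1 : 64 * m ^ 2 ≤ m ^ 3 := by
        rw [pow_succ m 2, mul_comm (m ^ 2) m]
        exact Nat.mul_le_mul_right _ hm
      nlinarith
    have h2 : 2 * (L a * L b * 2 ^ (2 * n ^ 2)) ≤ 2 * L n := by
      calc 2 * (L a * L b * 2 ^ (2 * n ^ 2)) ≤ 2 * (2 ^ (16 * n) * L (n - 1) * 2 ^ (2 * n ^ 2)) := by
            gcongr
            exact ha2.trans (Nat.pow_le_pow_right (by norm_num) hsmall)
        _ = 2 ^ (16 * n + 2 * n ^ 2 + 1) * L (n - 1) := by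
            rw [pow_add, pow_add]; ring
        _ ≤ 2 ^ ((n - 1) ^ 3) * L (n - 1) := by
            gcongr
            norm_num
        _ ≤ 2 * L n := hg
    omega

theorem N_bound (n : ℕ) (hn : 65 ≤ n) : N n * (n.factorial * 2 ^ n) ≤ L n := by
  have hfac : n.factorial * ((n + 1) * 4 ^ n) ≤ 2 ^ (2 * n ^ 2) := by
    have h1 : n.factorial ≤ 2 ^ (n * n) := by
      calc n.factorial ≤ n ^ n := Nat.factorial_le_pow n
        _ ≤ (2 ^ n) ^ n := Nat.pow_le_pow_left Nat.lt_two_pow_self.le n
        _ = 2 ^ (n * n) := (pow_mul 2 n n).symm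
    have h2 : n + 1 ≤ 2 ^ n := Nat.lt_two_pow_self
    have h3 : 4 ^ n = 2 ^ (2 * n) := by rw [pow_mul]; norm_num
    calc n.factorial * ((n + 1) * 4 ^ n) ≤ 2 ^ (n * n) * (2 ^ n * 2 ^ (2 * n)) := by
          rw [h3]; gcongr
      _ = 2 ^ (n * n + (n + 2 * n)) := by rw [← pow_add, ← pow_add]
      _ ≤ 2 ^ (2 * n ^ 2) := by
          apply Nat.pow_le_pow_right (by norm_num)
          nlinarith
  have each : ∀ j ∈ range (n + 1), n.choose j * f n j * 2 ^ (2 * n ^ 2) ≤ 2 ^ n * L n := by
    intro j hj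
    rw [mem_range] at hj
    have hch : n.choose j ≤ 2 ^ n := by
      rw [← Nat.sum_range_choose n]
      exact single_le_sum (f := fun i => n.choose i) (fun _ _ => Nat.zero_le _)
        (mem_range.2 hj)
    unfold f
    split_ifs with hc
    · have hT : L j * L (n + 1 - j) * 2 ^ (2 * n ^ 2) ≤ L n := by
        rcases Nat.lt_or_ge (n + 1) (2 * j) with h5 | h5
        · have := term n (n + 1 - j) (by omega) (by omega) hn
          rw [show n + 1 - (n + 1 - j) = j by omega] at this
          rw [mul_comm (L j)]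
          exact this
        · exact term n j (by omega) h5 hn
      calc n.choose j * (L j * L (n + 1 - j)) * 2 ^ (2 * n ^ 2) =
          n.choose j * (L j * L (n + 1 - j) * 2 ^ (2 * n ^ 2)) := by ring
        _ ≤ 2 ^ n * L n := Nat.mul_le_mul hch hT
    · simp
  have hsum : N n * 2 ^ (2 * n ^ 2) ≤ (n + 1) * (2 ^ n * L n) := by
    calc N n * 2 ^ (2 * n ^ 2) ≤ (∑ j ∈ range (n + 1), n.choose j * f n j) * 2 ^ (2 * n ^ 2) :=
          Nat.mul_le_mul_right _ (N_le n)
      _ = ∑ j ∈ range (n + 1), n.choose j * f n j * 2 ^ (2 * n ^ 2) := sum_mul _ _ _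
      _ ≤ ∑ _j ∈ range (n + 1), 2 ^ n * L n := sum_le_sum each
      _ = (n + 1) * (2 ^ n * L n) := by rw [sum_const, card_range, smul_eq_mul]
  have h4 : ((n + 1) * 2 ^ n) * (N n * (n.factorial * 2 ^ n)) ≤ ((n + 1) * 2 ^ n) * L n := by
    calc ((n + 1) * 2 ^ n) * (N n * (n.factorial * 2 ^ n)) =
        N n * (n.factorial * ((n + 1) * (2 ^ n * 2 ^ n))) := by ring
      _ = N n * (n.factorial * ((n + 1) * 4 ^ n)) := by
          rw [← mul_pow]; norm_num
      _ ≤ N n * 2 ^ (2 * n ^ 2) := Nat.mul_le_mul_left _ hfac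
      _ ≤ (n + 1) * (2 ^ n * L n) := hsum
      _ = ((n + 1) * 2 ^ n) * L n := by ring
  exact Nat.le_of_mul_le_mul_left h4 (by positivity)

/-- **Q2.** The proportion of the isomorphism classes of primitive convex geometries among the
isomorphism classes of convex geometries on `n` elements tends to `1`; the proportion of the other
classes is at most `2 ^ (-n)` for `n ≥ 65`. -/
theorem result : Filter.Tendsto (fun n : ℕ => (Upr n : ℝ) / (U n : ℝ)) Filter.atTop (nhds 1) ∧
    ∀ n : ℕ, 65 ≤ n → (1 - (1 / 2 : ℝ) ^ n) * U n ≤ Upr n := by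
  have hmain : ∀ n : ℕ, 65 ≤ n → (1 - (1 / 2 : ℝ) ^ n) * U n ≤ Upr n := by
    intro n hn
    have h1 : N n * 2 ^ n ≤ U n := by
      have h2 : n.factorial * (N n * 2 ^ n) ≤ n.factorial * U n := by
        calc n.factorial * (N n * 2 ^ n) = N n * (n.factorial * 2 ^ n) := by ring
          _ ≤ L n := N_bound n hn
          _ ≤ n.factorial * U n := L_le_U n
      exact Nat.le_of_mul_le_mul_left h2 n.factorial_pos
    have h3 : (N n : ℝ) * 2 ^ n ≤ U n := by exact_mod_cast h1
    have h4 : (U n : ℝ) ≤ Upr n + N n := by exact_mod_cast U_le n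
    have hp : (0 : ℝ) < 2 ^ n := by positivity
    have h5 : (N n : ℝ) ≤ (1 / 2 : ℝ) ^ n * U n := by
      rw [one_div, inv_pow, inv_mul_eq_div, le_div_iff₀ hp]
      exact h3
    linarith
  refine ⟨?_, hmain⟩
  have hUpos : ∀ n, 0 < U n := by
    intro n
    have h1 := L_pos n
    have h2 := L_le_U n
    rcases Nat.eq_zero_or_pos (U n) with h | h
    · rw [h, mul_zero] at h2
      omega
    · exact h
  have h1 : Filter.Tendsto (fun n : ℕ => (1 : ℝ) - (1 / 2 : ℝ) ^ n) Filter.atTop (nhds 1) := by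
    have := (tendsto_pow_atTop_nhds_zero_of_lt_one (r := (1 / 2 : ℝ)) (by norm_num)
      (by norm_num)).const_sub 1
    simpa using this
  refine tendsto_of_tendsto_of_tendsto_of_le_of_le' h1 tendsto_const_nhds ?_ ?_
  · rw [Filter.eventually_atTop]
    refine ⟨65, fun n hn => ?_⟩
    have hU : (0 : ℝ) < U n := by exact_mod_cast hUpos n
    rw [le_div_iff₀ hU]
    exact hmain n hn
  · refine Filter.Eventually.of_forall (fun n => ?_)
    have hU : (0 : ℝ) < U n := by exact_mod_cast hUpos n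
    rw [div_le_one hU]
    exact_mod_cast Upr_le n

end Pool.Agent.Results.MP_0c861e_co.UnlabelledPrimitive
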